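import Pool.Agent.Lib.H15M.Z2
import Pool.Agent.Lib.H15M.Z3

/-!
# Finitely generated subgroups of normal free subgroups of hyperbolic groups

`G` is a hyperbolic group (as in the problem), `F` a normal subgroup which is free of finite rank at least `2`, and `H` a finitely
generated subgroup such that `H ∩ F` has finite index in `H` (for example `H ≤ F`). If `H` is not quasiconvex, one element `x ≠ 1` of `F` lies in
`g⁻¹ H g` for infinitely many right cosets `H g`. So finite width implies quasiconvexity for such `H`.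

The proof is in `Pool/Agent/Lib/H15M` (`PROOF.md`).
-/

namespace Pool.Agent.Results.MP_38cb43_al.FiniteWidthFibre

open H15M

/-- **Main theorem.** -/
theorem result :
    ∀ (G : Type) [Group G] (S : Finset G), Subgroup.closure (S : Set G) = ⊤ →
      ∀ d : G → G → ℕ,
        (∀ g h : G, d g h = sInf {n : ℕ | ∃ l : List G, l.length = n ∧
            (∀ x ∈ l, x ∈ S ∨ x⁻¹ ∈ S) ∧ l.prod = g⁻¹ * h}) →
        (∃ δ : ℕ, ∀ x y z w : G,
            min ((d w x : ℤ) + d w z - d x z) ((d w y : ℤ) + d w z - d y z)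
              ≤ (d w x : ℤ) + d w y - d x y + 2 * δ) →
        ∀ F : Subgroup G, F.Normal → ∀ (ι : Type) [Finite ι] [Nontrivial ι], Nonempty (FreeGroup ι ≃* F) →
        ∀ H : Subgroup G, H.FG → F.relIndex H ≠ 0 →
          (Quasiconvex d H ∨
            ∃ x ∈ F, x ≠ 1 ∧ {κ : Quotient (QuotientGroup.rightRel H) |
              ∃ g : G, Quotient.mk (QuotientGroup.rightRel H) g = κ ∧ g * x * g⁻¹ ∈ H}.Infinite) ∧
          (FiniteWidth H → Quasiconvex d H) ∧
          ((∀ g : G, g ∉ H → ∀ x : G, x ∈ H → g⁻¹ * x * g ∈ H → x = 1) → Quasiconvex d H) := by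
  intro G _ S hS d hd hδ F hF ι _ _ he H hfg hfi
  obtain ⟨δ, hδ⟩ := hδ
  obtain ⟨e⟩ := he
  have hyp := wm_hyp hS hd hδ
  have h1 : Quasiconvex d H ∨ ∃ x ∈ F, x ≠ 1 ∧ {κ | ∃ g, col H g = κ ∧ g * x * g⁻¹ ∈ H}.Infinite := by
    rcases main S hS d hd δ hδ F hF ι e (H ⊓ F) inf_le_right (fg_inf F H hfg hfi) with h | ⟨x, hx, hx1, hi⟩
    · exact Or.inl (qc_up hyp (wm_left hd) F H hfi h)
    · exact Or.inr ⟨x, hx, hx1, inf_up F H hfi x hi⟩
  have h2 : FiniteHeight H → Quasiconvex d H := by
    intro hh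
    rcases h1 with h | ⟨x, hx, hx1, hi⟩
    · exact h
    · exact absurd hh (not_height F e H hx hx1 hi)
  exact ⟨h1, fun hw => h2 (height_of_width H hw), fun hm => h2 (height_of_width H (width_of_malnormal H hm))⟩

end Pool.Agent.Results.MP_38cb43_al.FiniteWidthFibre
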